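import Pool.Agent.Helper85.QT.St2

/-!
# Project QT, module HN2: exponential decay of `f' - 1`

Proof without integrals: if `|f' - 1| ≤ K` where `dd ≥ a` then, by Cauchy's estimate on discs of radius `2`, `|f''| ≤ K/2` where
`dd ≥ a + 2`; by two applications of the mean value inequality and `f (w+1) - f w = 1`, `|f' w - 1| ≤ K/2` there.
-/

set_option autoImplicit false

open MeasureTheory Matrix Set Topology Filter
open scoped ENNReal ComplexConjugate

namespace Pool.Agent.Helper31.QT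

open Pool.Agent.Helper85.QT Pool.Agent.Helper86.QA

namespace HN2

theorem Sm_open (m : ℝ) : IsOpen (Sm m) :=
  (isOpen_lt continuous_const Complex.continuous_im).inter
    (isOpen_lt Complex.continuous_im continuous_const)

theorem Sm_int (m : ℝ) (w : ℂ) (hw : w ∈ Sm m) (n : ℤ) : w + n ∈ Sm m := by
  have h : (w + (n : ℂ)).im = w.im := by
    rw [Complex.add_im, Complex.intCast_im, add_zero]
  change 0 < (w + (n : ℂ)).im ∧ (w + (n : ℂ)).im < m
  rw [h]
  exact hw

theorem per_nat (m : ℝ) (f : ℂ → ℂ) (h : ∀ w ∈ Sm m, f (w + 1) = f w + 1) (n : ℕ) :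
    ∀ w ∈ Sm m, f (w + n) = f w + n := by
  induction n with
  | zero => intro w _; simp
  | succ k ih =>
    intro w hw
    have h1 : w + (k : ℂ) ∈ Sm m := by
      have := Sm_int m w hw k
      simpa using this
    have h2 : w + ((k + 1 : ℕ) : ℂ) = (w + k) + 1 := by push_cast; ring
    rw [h2, h _ h1, ih w hw]
    push_cast
    ring

theorem per_int (m : ℝ) (f : ℂ → ℂ) (h : ∀ w ∈ Sm m, f (w + 1) = f w + 1) (n : ℤ) :
    ∀ w ∈ Sm m, f (w + n) = f w + n := by
  intro w hw
  rcases Int.eq_nat_or_neg n with ⟨k, hk | hk⟩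
  · subst hk
    have := per_nat m f h k w hw
    simpa using this
  · subst hk
    have h1 := Sm_int m w hw (-(k : ℤ))
    have h2 := per_nat m f h k _ h1
    have h3 : w + ((-(k : ℤ) : ℤ) : ℂ) + (k : ℂ) = w := by push_cast; ring
    rw [h3] at h2
    rw [h2]
    push_cast
    ring

theorem dd_mem {m : ℝ} {w : ℂ} (h : 0 < dd m w) : w ∈ Sm m := by
  unfold dd at h
  rw [lt_min_iff] at h
  exact ⟨h.1, by linarith [h.2]⟩

theorem dd_line {m : ℝ} {w z : ℂ} (h : z.im = w.im) : dd m z = dd m w := by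
  unfold dd
  rw [h]

theorem dd_near {m : ℝ} {w z : ℂ} {r : ℝ} (h : ‖z - w‖ ≤ r) : dd m w - r ≤ dd m z := by
  have h1 : |z.im - w.im| ≤ r := by
    have := Complex.abs_im_le_norm (z - w)
    rw [Complex.sub_im] at this
    exact this.trans h
  rw [abs_le] at h1
  unfold dd
  have h2 := min_le_left w.im (m - w.im)
  have h3 := min_le_right w.im (m - w.im)
  exact le_min (by linarith) (by linarith)

/-- one step of the iteration -/
theorem step (m : ℝ) (f : ℂ → ℂ) (hf : HN m f) (a K : ℝ) (ha : 0 < a)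
    (hK : ∀ w, a ≤ dd m w → ‖deriv f w - 1‖ ≤ K) :
    ∀ w, a + 2 ≤ dd m w → ‖deriv f w - 1‖ ≤ K / 2 := by
  have hd : DifferentiableOn ℂ (deriv f) (Sm m) := hf.dif.deriv (Sm_open m)
  have hH : ∀ z, a + 2 ≤ dd m z → ‖deriv (deriv f) z‖ ≤ K / 2 := by
    intro z hz
    have h1 : ∀ y ∈ Metric.closedBall z 2, a ≤ dd m y := by
      intro y hy
      rw [Metric.mem_closedBall, dist_eq_norm] at hy
      have := dd_near (m := m) hy
      linarith
    have h2 : Metric.closedBall z 2 ⊆ Sm m := fun y hy => dd_mem (lt_of_lt_of_le ha (h1 y hy))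
    have h3 : DiffContOnCl ℂ (fun y => deriv f y - 1) (Metric.ball z 2) :=
      (hd.sub_const 1).diffContOnCl_ball h2
    have h4 := Complex.norm_deriv_le_of_forall_mem_sphere_norm_le two_pos h3
      (fun y hy => hK y (h1 y (Metric.sphere_subset_closedBall hy)))
    rwa [deriv_sub_const] at h4
  intro w hw
  have hK0 : 0 ≤ K / 2 := (norm_nonneg _).trans (hH w hw)
  -- Lipschitz bound of the derivative on the horizontal line
  have hL : ∀ z : ℂ, z.im = w.im → ‖deriv f z - deriv f w‖ ≤ K / 2 * ‖z - w‖ := by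
    intro z hz
    have hconv : Convex ℝ {y : ℂ | y.im = w.im} := by
      have : {y : ℂ | y.im = w.im} = Complex.imCLM ⁻¹' {w.im} := by
        ext y
        simp
      rw [this]
      exact (convex_singleton _).is_linear_preimage Complex.imCLM.isBoundedLinearMap.toIsLinearMap
    refine Convex.norm_image_sub_le_of_norm_deriv_le (s := {y : ℂ | y.im = w.im}) ?_ ?_ hconv rfl hz
    · intro y hy
      have h1 : dd m y = dd m w := dd_line hy
      have h2 : y ∈ Sm m := dd_mem (by rw [h1]; linarith)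
      exact (hd y h2).differentiableAt ((Sm_open m).mem_nhds h2)
    · intro y hy
      have h1 : dd m y = dd m w := dd_line hy
      exact hH y (by rw [h1]; exact hw)
  have hwS : w ∈ Sm m := dd_mem (by linarith)
  have hconv : Convex ℝ ({y : ℂ | y.im = w.im} ∩ Metric.closedBall w 1) := by
    have : {y : ℂ | y.im = w.im} = Complex.imCLM ⁻¹' {w.im} := by
      ext y
      simp
    rw [this]
    exact ((convex_singleton _).is_linear_preimage
      Complex.imCLM.isBoundedLinearMap.toIsLinearMap).inter (convex_closedBall w 1)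
  have h1 : ‖(f (w + 1) - deriv f w * (w + 1)) - (f w - deriv f w * w)‖ ≤ K / 2 * ‖w + 1 - w‖ := by
    refine Convex.norm_image_sub_le_of_norm_deriv_le (f := fun z => f z - deriv f w * z)
      (s := {y : ℂ | y.im = w.im} ∩ Metric.closedBall w 1) ?_ ?_ hconv
      ⟨rfl, Metric.mem_closedBall_self zero_le_one⟩ ⟨by simp, by simp⟩
    · intro y hy
      have h1 : dd m y = dd m w := dd_line hy.1
      have h2 : y ∈ Sm m := dd_mem (by rw [h1]; linarith)
      have h3 : DifferentiableAt ℂ f y := (hf.dif y h2).differentiableAt ((Sm_open m).mem_nhds h2)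
      exact h3.sub ((differentiableAt_id).const_mul _)
    · intro y hy
      have h1 : dd m y = dd m w := dd_line hy.1
      have h2 : y ∈ Sm m := dd_mem (by rw [h1]; linarith)
      have h3 : HasDerivAt f (deriv f y) y :=
        ((hf.dif y h2).differentiableAt ((Sm_open m).mem_nhds h2)).hasDerivAt
      have h4 : HasDerivAt (fun z => f z - deriv f w * z) (deriv f y - deriv f w * 1) y :=
        h3.sub ((hasDerivAt_id y).const_mul _)
      rw [h4.deriv, mul_one]
      have h5 := hL y hy.1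
      have h6 : ‖y - w‖ ≤ 1 := by
        have := hy.2
        rwa [Metric.mem_closedBall, dist_eq_norm] at this
      calc ‖deriv f y - deriv f w‖ ≤ K / 2 * ‖y - w‖ := h5
        _ ≤ K / 2 * 1 := mul_le_mul_of_nonneg_left h6 hK0
        _ = K / 2 := mul_one _
  have h2 : (f (w + 1) - deriv f w * (w + 1)) - (f w - deriv f w * w) = -(deriv f w - 1) := by
    rw [hf.per w hwS]
    ring
  rw [h2, norm_neg, add_sub_cancel_left, norm_one, mul_one] at h1
  exact h1

theorem iter (m : ℝ) (f : ℂ → ℂ) (hf : HN m f) (h0 : ∀ w, 3 / 2 ≤ dd m w → ‖deriv f w‖ ≤ 3)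
    (k : ℕ) : ∀ w, 3 / 2 + 2 * (k : ℝ) ≤ dd m w → ‖deriv f w - 1‖ ≤ 4 * (1 / 2) ^ k := by
  induction k with
  | zero =>
    intro w hw
    have h1 := h0 w (by simpa using hw)
    calc ‖deriv f w - 1‖ ≤ ‖deriv f w‖ + ‖(1 : ℂ)‖ := norm_sub_le _ _
      _ ≤ 3 + 1 := by rw [norm_one]; linarith
      _ = 4 * (1 / 2) ^ 0 := by norm_num
  | succ k ih =>
    intro w hw
    have h1 := step m f hf (3 / 2 + 2 * (k : ℝ)) (4 * (1 / 2) ^ k) (by positivity) ih w
      (by push_cast at hw; linarith)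
    rw [pow_succ]
    linarith

theorem cpos : 0 < Real.log 2 / 2 := by
  have := Real.log_two_gt_d9
  linarith

theorem decay (m : ℝ) (f : ℂ → ℂ) (hf : HN m f) (h0 : ∀ w, 3 / 2 ≤ dd m w → ‖deriv f w‖ ≤ 3)
    (w : ℂ) (hw : 2 ≤ dd m w) : ‖deriv f w - 1‖ ≤ 16 * Real.exp (-(Real.log 2 / 2) * dd m w) := by
  set d := dd m w with hd
  have hpos : 0 ≤ (d - 3 / 2) / 2 := by linarith
  have h1 := Nat.floor_le hpos
  have h2 := Nat.lt_floor_add_one ((d - 3 / 2) / 2)
  set k := ⌊(d - 3 / 2) / 2⌋₊ with hk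
  have h3 := iter m f hf h0 k w (by rw [← hd]; linarith)
  refine h3.trans ?_
  have h4 : ((1 : ℝ) / 2) ^ k = Real.exp (-(k * Real.log 2)) := by
    rw [Real.exp_neg, Real.exp_nat_mul, Real.exp_log two_pos, one_div, inv_pow]
  have h5 : Real.exp (2 * Real.log 2) = 4 := by
    rw [two_mul, Real.exp_add, Real.exp_log two_pos]; norm_num
  have h6 : Real.exp (-(k * Real.log 2)) ≤ 4 * Real.exp (-(Real.log 2 / 2) * d) := by
    rw [← h5, ← Real.exp_add]
    apply Real.exp_le_exp.mpr
    have h7 : d / 2 - 2 ≤ (k : ℝ) := by linarith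
    have hl : 0 < Real.log 2 := by have := cpos; linarith
    nlinarith
  rw [h4]
  linarith

/-- vertical estimate -/
theorem vert (m : ℝ) (f : ℂ → ℂ) (hf : HN m f) (c C : ℝ) (hc : 0 < c) (hC : 0 ≤ C)
    (hH : ∀ w, 2 ≤ dd m w → ‖deriv f w - 1‖ ≤ C * Real.exp (-c * dd m w))
    (x s : ℝ) (hs : s = 1 ∨ s = -1) (t : ℝ) (ht : 0 ≤ t) (htm : t ≤ m / 2 - 2) :
    ‖(f (⟨x, m / 2 + s * t⟩ : ℂ) - ⟨x, m / 2 + s * t⟩) - (f ⟨x, m / 2⟩ - ⟨x, m / 2⟩)‖ ≤ C / c := by
  set p : ℝ → ℂ := fun t => ⟨x, m / 2 + s * t⟩ with hp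
  have hpd : ∀ t : ℝ, HasDerivAt p (s * Complex.I) t := by
    intro t
    have e : p = fun t : ℝ => ((x : ℂ) + (m / 2 : ℝ) * Complex.I) + (t : ℂ) * (s * Complex.I) := by
      funext t
      apply Complex.ext
      · simp [hp]
      · simp [hp, mul_comm]
    rw [e]
    have h1 : HasDerivAt (fun t : ℝ => (t : ℂ) * (s * Complex.I)) (1 * (s * Complex.I)) t :=
      (Complex.ofRealCLM.hasDerivAt (x := t)).mul_const _
    rw [one_mul] at h1
    exact h1.const_add _
  have hdd : ∀ t : ℝ, 0 ≤ t → dd m (p t) = m / 2 - t := by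
    intro t ht
    unfold dd
    simp only [hp]
    rcases hs with h | h
    · rw [h, min_eq_right (by linarith)]; ring
    · rw [h, min_eq_left (by linarith)]; ring
  have hder : ∀ t : ℝ, 0 ≤ t → t ≤ m / 2 - 2 →
      HasDerivAt (fun t => f (p t) - p t) ((deriv f (p t) - 1) * (s * Complex.I)) t := by
    intro t ht htm
    have h1 : p t ∈ Sm m := dd_mem (by rw [hdd t ht]; linarith)
    have h2 : HasDerivAt f (deriv f (p t)) (p t) :=
      ((hf.dif _ h1).differentiableAt ((Sm_open m).mem_nhds h1)).hasDerivAt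
    have h3 : HasDerivAt (fun t => f (p t)) (deriv f (p t) * (s * Complex.I)) t :=
      h2.comp t (hpd t)
    have h4 := h3.sub (hpd t)
    have h5 : (deriv f (p t) - 1) * (s * Complex.I) =
        deriv f (p t) * (s * Complex.I) - s * Complex.I := by ring
    rw [h5]
    exact h4
  have hns : ‖(s : ℂ) * Complex.I‖ = 1 := by
    rcases hs with h | h <;> rw [h] <;> simp
  have key := image_norm_le_of_norm_deriv_right_le_deriv_boundary
    (f := fun t => (f (p t) - p t) - (f (p 0) - p 0)) (a := 0) (b := m / 2 - 2)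
    (f' := fun t => (deriv f (p t) - 1) * (s * Complex.I))
    (B := fun t => C / c * (Real.exp (-c * (m / 2 - t)) - Real.exp (-c * (m / 2))))
    (B' := fun t => C * Real.exp (-c * (m / 2 - t)))
    (fun t ht => ((hder t ht.1 ht.2).sub_const _).continuousAt.continuousWithinAt)
    (fun t ht => ((hder t ht.1 ht.2.le).sub_const _).hasDerivWithinAt)
    (by simp)
    (by
      intro t
      have h1 : HasDerivAt (fun t : ℝ => -c * (m / 2 - t)) (-c * (0 - 1)) t :=
        (((hasDerivAt_const t (m / 2)).sub (hasDerivAt_id t))).const_mul (-c)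
      have h2 := ((h1.exp.sub_const (Real.exp (-c * (m / 2)))).const_mul (C / c))
      have h3 : C / c * (Real.exp (-c * (m / 2 - t)) * (-c * (0 - 1))) =
          C * Real.exp (-c * (m / 2 - t)) := by
        field_simp
        ring
      rw [h3] at h2
      exact h2)
    (by
      intro t ht
      rw [norm_mul, hns, mul_one]
      have h1 := hH (p t) (by rw [hdd t ht.1]; linarith [ht.2])
      rw [hdd t ht.1] at h1
      exact h1)
    (⟨ht, htm⟩ : t ∈ Icc 0 (m / 2 - 2))
  have hp0 : p 0 = ⟨x, m / 2⟩ := by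
    simp only [hp, mul_zero, add_zero]
  rw [hp0] at key
  refine key.trans ?_
  have h1 : Real.exp (-c * (m / 2 - t)) ≤ 1 := by
    rw [Real.exp_le_one_iff]
    have : 0 ≤ c * (m / 2 - t) := mul_nonneg hc.le (by linarith)
    linarith
  have h2 : 0 ≤ Real.exp (-c * (m / 2)) := (Real.exp_pos _).le
  calc C / c * (Real.exp (-c * (m / 2 - t)) - Real.exp (-c * (m / 2))) ≤ C / c * 1 :=
        mul_le_mul_of_nonneg_left (by linarith) (div_nonneg hC hc.le)
    _ = C / c := mul_one _

/-- horizontal estimate on the middle line -/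
theorem hor (m : ℝ) (f : ℂ → ℂ) (hf : HN m f) (hm : 4 ≤ m) (K : ℝ) (hK : 0 ≤ K)
    (hH : ∀ w : ℂ, w.im = m / 2 → ‖deriv f w - 1‖ ≤ K) (w : ℂ) (hw : w.im = m / 2) :
    ‖(f w - w) - (f (⟨0, m / 2⟩ : ℂ) - ⟨0, m / 2⟩)‖ ≤ K := by
  have hline : ∀ z : ℂ, z.im = m / 2 → z ∈ Sm m := by
    intro z hz
    exact ⟨by rw [hz]; linarith, by rw [hz]; linarith⟩
  set n : ℤ := round w.re with hn
  have h1 : f (w + ((-n : ℤ) : ℂ)) = f w + ((-n : ℤ) : ℂ) := per_int m f hf.per (-n) w (hline w hw)
  set z : ℂ := w + ((-n : ℤ) : ℂ) with hz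
  have hzim : z.im = m / 2 := by
    rw [hz, Complex.add_im, Complex.intCast_im, add_zero, hw]
  have h2 : f w - w = f z - z := by
    rw [h1, hz]; ring
  have hconv : Convex ℝ {y : ℂ | y.im = m / 2} := by
    have : {y : ℂ | y.im = m / 2} = Complex.imCLM ⁻¹' {m / 2} := by
      ext y
      simp
    rw [this]
    exact (convex_singleton _).is_linear_preimage Complex.imCLM.isBoundedLinearMap.toIsLinearMap
  have h3 : ‖(f z - z) - (f (⟨0, m / 2⟩ : ℂ) - ⟨0, m / 2⟩)‖ ≤ K * ‖z - ⟨0, m / 2⟩‖ := by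
    refine Convex.norm_image_sub_le_of_norm_deriv_le (f := fun z => f z - z)
      (s := {y : ℂ | y.im = m / 2}) ?_ ?_ hconv rfl hzim
    · intro y hy
      exact ((hf.dif y (hline y hy)).differentiableAt ((Sm_open m).mem_nhds (hline y hy))).sub
        differentiableAt_id
    · intro y hy
      have h3 : HasDerivAt f (deriv f y) y :=
        ((hf.dif y (hline y hy)).differentiableAt ((Sm_open m).mem_nhds (hline y hy))).hasDerivAt
      have h4 : HasDerivAt (fun z => f z - z) (deriv f y - 1) y := h3.sub (hasDerivAt_id y)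
      rw [h4.deriv]
      exact hH y hy
  have h4 : ‖z - ⟨0, m / 2⟩‖ ≤ 1 := by
    have e : z - ⟨0, m / 2⟩ = ((w.re - n : ℝ) : ℂ) := by
      apply Complex.ext
      · simp [hz, sub_eq_add_neg]
      · simp [hzim]
    rw [e, Complex.norm_real, Real.norm_eq_abs]
    have := abs_sub_round w.re
    linarith
  rw [h2]
  calc _ ≤ K * ‖z - ⟨0, m / 2⟩‖ := h3
    _ ≤ K * 1 := mul_le_mul_of_nonneg_left h4 hK
    _ = K := mul_one _

end HN2

open HN2

theorem hHN2 (hHN1 : StHN1) : StHN2 := by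
  refine ⟨80, Real.log 2 / 4, by norm_num, by have := cpos; linarith, ?_⟩
  intro m f hm hf
  have h0 := (hHN1 m f hf).1
  have hdec := decay m f hf h0
  have hl : 0 < Real.log 2 := by have := cpos; linarith
  have hl2 := Real.log_two_gt_d9
  refine ⟨?_, f ⟨0, m / 2⟩ - ⟨0, m / 2⟩, ?_⟩
  · intro w hw
    refine (hdec w hw).trans ?_
    have h1 : Real.exp (-(Real.log 2 / 2) * dd m w) ≤ Real.exp (-(Real.log 2 / 4) * dd m w) := by
      apply Real.exp_le_exp.mpr
      nlinarith
    have h2 := Real.exp_pos (-(Real.log 2 / 4) * dd m w)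
    linarith
  have hmid : ∀ w : ℂ, w.im = m / 2 → ‖f w - w - (f ⟨0, m / 2⟩ - ⟨0, m / 2⟩)‖ ≤
      16 * Real.exp (-(Real.log 2 / 4) * m) := by
    intro w hw
    refine hor m f hf hm _ (by positivity) ?_ w hw
    intro z hz
    have hd : dd m z = m / 2 := by
      unfold dd
      rw [hz, min_eq_left (by linarith)]
    have h1 := hdec z (by rw [hd]; linarith)
    rw [hd] at h1
    have e : -(Real.log 2 / 2) * (m / 2) = -(Real.log 2 / 4) * m := by ring
    rwa [e] at h1
  refine ⟨?_, ?_⟩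
  · intro w hw
    -- height of `w`
    obtain ⟨s, t, hs, ht, him⟩ : ∃ s t : ℝ, (s = 1 ∨ s = -1) ∧ 0 ≤ t ∧ w.im = m / 2 + s * t := by
      rcases le_total (m / 2) w.im with h | h
      · exact ⟨1, w.im - m / 2, Or.inl rfl, by linarith, by ring⟩
      · exact ⟨-1, m / 2 - w.im, Or.inr rfl, by linarith, by ring⟩
    have htm : t ≤ m / 2 - 2 := by
      unfold dd at hw
      rw [le_min_iff, him] at hw
      rcases hs with h | h
      · rw [h] at hw; linarith [hw.2]
      · rw [h] at hw; linarith [hw.1]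
    have h1 := vert m f hf (Real.log 2 / 2) 16 cpos (by norm_num) hdec w.re s hs t ht htm
    have e : (⟨w.re, m / 2 + s * t⟩ : ℂ) = w := by
      apply Complex.ext
      · rfl
      · exact him.symm
    rw [e] at h1
    have h2 := hmid ⟨w.re, m / 2⟩ rfl
    have h3 : (16 : ℝ) / (Real.log 2 / 2) ≤ 64 := by
      rw [div_le_iff₀ cpos]
      linarith
    have h4 : Real.exp (-(Real.log 2 / 4) * m) ≤ 1 := by
      rw [Real.exp_le_one_iff]
      nlinarith
    have h5 : f w - w - (f ⟨0, m / 2⟩ - ⟨0, m / 2⟩) =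
        ((f w - w) - (f ⟨w.re, m / 2⟩ - ⟨w.re, m / 2⟩)) +
        (f ⟨w.re, m / 2⟩ - ⟨w.re, m / 2⟩ - (f ⟨0, m / 2⟩ - ⟨0, m / 2⟩)) := by ring
    rw [h5]
    refine (norm_add_le _ _).trans ?_
    linarith
  · intro w hw
    refine (hmid w hw).trans ?_
    have := Real.exp_pos (-(Real.log 2 / 4) * m)
    linarith

end Pool.Agent.Helper31.QT
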