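import Pool.Agent.Helper85.QT.St2
import Pool.Agent.Helper71.TU.X5aux

/-!
# Project QT, module ANB: the maps of an annulus
-/

set_option autoImplicit false

open MeasureTheory Matrix Set Topology Filter
open scoped ENNReal ComplexConjugate

namespace Pool.Agent.Helper31.QT

open Pool.Agent.Helper85.QT Pool.Agent.Helper86.QA

theorem Sm_open (m : ℝ) : IsOpen (Sm m) :=
  (isOpen_lt continuous_const Complex.continuous_im).inter
    (isOpen_lt Complex.continuous_im continuous_const)

theorem Sm_int (m : ℝ) (w : ℂ) (hw : w ∈ Sm m) (n : ℤ) : w + n ∈ Sm m := by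
  have h : (w + (n : ℂ)).im = w.im := by
    rw [Complex.add_im, Complex.intCast_im, add_zero]
  change 0 < (w + (n : ℂ)).im ∧ (w + (n : ℂ)).im < m
  rw [h]
  exact hw

theorem per_nat (m : ℝ) (f : ℂ → ℂ) (h : ∀ w ∈ Sm m, f (w + 1) = f w + 1) (n : ℕ) :
    ∀ w ∈ Sm m, f (w + n) = f w + n := by
  induction n with
  | zero => intro w _; simp
  | succ k ih =>
    intro w hw
    have h1 : w + (k : ℂ) ∈ Sm m := by
      have := Sm_int m w hw k
      simpa using this
    have h2 : w + ((k + 1 : ℕ) : ℂ) = (w + k) + 1 := by push_cast; ring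
    rw [h2, h _ h1, ih w hw]
    push_cast
    ring

theorem per_int (m : ℝ) (f : ℂ → ℂ) (h : ∀ w ∈ Sm m, f (w + 1) = f w + 1) (n : ℤ) :
    ∀ w ∈ Sm m, f (w + n) = f w + n := by
  intro w hw
  rcases Int.eq_nat_or_neg n with ⟨k, hk | hk⟩
  · subst hk
    have := per_nat m f h k w hw
    simpa using this
  · subst hk
    have h1 := Sm_int m w hw (-(k : ℤ))
    have h2 := per_nat m f h k _ h1
    have h3 : w + ((-(k : ℤ) : ℤ) : ℂ) + (k : ℂ) = w := by push_cast; ring
    rw [h3] at h2
    rw [h2]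
    push_cast
    ring

theorem hANB (hHN3 : StHN3) : StANB := by
  intro Γ _ ρ A B α lam M G m φ C3 hA
  have hlam : lam ≠ 0 := by
    intro h
    have := hA.re
    rw [h] at this
    simp at this
  have hnl : 0 < ‖lam‖ := norm_pos_iff.mpr hlam
  set τ : ℂ := 2 * Real.pi * Complex.I / lam with hτ
  have hlτ : lam * τ = 2 * Real.pi * Complex.I := by
    rw [hτ]; field_simp
  have hτ0 : τ ≠ 0 := by
    intro h
    rw [h, mul_zero] at hlτ
    exact Complex.two_pi_I_ne_zero hlτ.symm
  have him : τ.im = 2 * Real.pi * lam.re / ‖lam‖ ^ 2 := by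
    rw [hτ, Complex.div_im, Complex.normSq_eq_norm_sq]
    simp
  have hGinj : InjOn G (Sm M) := by
    intro w hw w' hw' h
    refine hA.Gb.injOn hw hw' ?_
    simp only [h]
  have hHG : HN M G := ⟨hA.Gh, hGinj, hA.G1⟩
  have hHp : HN m φ := ⟨hA.ph, hA.pi, hA.p1⟩
  have hHf : HN m (fun w => G (φ w)) := by
    refine ⟨hA.Gh.comp hA.ph hA.pm, ?_, ?_⟩
    · intro w hw w' hw' h
      exact hA.pi hw hw' (hGinj (hA.pm hw) (hA.pm hw') h)
    · intro w hw
      rw [hA.p1 w hw, hA.G1 _ (hA.pm hw)]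
  have hm0 : 0 < m := lt_of_lt_of_le one_pos hA.m1
  have hmM : m ≤ M := hHN3.2.1 m M φ hm0 hHp hA.pm
  have hM0 : 0 < M := lt_of_lt_of_le hm0 hmM
  -- injectivity modulo the lattice
  have hlat : ∀ w ∈ Sm M, ∀ w' ∈ Sm M, ∀ n k : ℤ, G w = G w' + n + k * τ → w = w' + n ∧ k = 0 := by
    intro w hw w' hw' n k h
    have h1 : G (w' + n) = G w' + n := per_int M G hA.G1 n w' hw'
    have h2 : Complex.exp (lam * G w) = Complex.exp (lam * G (w' + n)) := by
      rw [h, h1]
      have h3 : lam * (G w' + n + k * τ) = lam * (G w' + n) + k * (2 * Real.pi * Complex.I) := by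
        rw [← hlτ]; ring
      rw [h3, Complex.exp_add, Complex.exp_int_mul_two_pi_mul_I, mul_one]
    have h4 : w = w' + n := hA.Gb.injOn hw (Sm_int M w' hw' n) h2
    refine ⟨h4, ?_⟩
    have h5 : G w = G w' + n := by rw [h4, h1]
    have h6 : (k : ℂ) * τ = 0 := by
      rw [h5] at h
      linear_combination -h
    rcases mul_eq_zero.mp h6 with h7 | h7
    · exact_mod_cast h7
    · exact absurd h7 hτ0
  -- area
  have hτim : 0 < τ.im := by
    rw [him]
    have := hA.re
    positivity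
  have hMτ : M ≤ τ.im := by
    set R : Set ℂ := {w : ℂ | w ∈ Sm M ∧ 0 < w.re ∧ w.re < 1} with hR
    have hRo : IsOpen R := (Sm_open M).inter
      ((isOpen_lt continuous_const Complex.continuous_re).inter
        (isOpen_lt Complex.continuous_re continuous_const))
    have hRs : R ⊆ Sm M := fun w hw => hw.1
    have hPo : IsOpen (G '' R) :=
      Pool.TU.X5.isOpen_image_of_injOn hRo (hA.Gh.mono hRs) (hGinj.mono hRs)
    have h1 := hHN3.1 M G hM0 hHG
    have h2 : volume (G '' R) ≤ ENNReal.ofReal τ.im := by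
      refine hHN3.2.2 τ (G '' R) hτim hPo.measurableSet ?_
      intro n k n' k' hne
      rw [Set.disjoint_left]
      rintro z ⟨x, ⟨w, hw, rfl⟩, rfl⟩ ⟨y, ⟨w', hw', rfl⟩, hz⟩
      simp only at hz
      have h3 : G w = G w' + ((n' - n : ℤ) : ℂ) + ((k' - k : ℤ) : ℂ) * τ := by
        push_cast
        linear_combination -hz
      obtain ⟨h4, h5⟩ := hlat w (hRs hw) w' (hRs hw') _ _ h3
      have h6 : w.re = w'.re + ((n' - n : ℤ) : ℝ) := by
        rw [h4, Complex.add_re, Complex.intCast_re]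
      have h7 : ((n' - n : ℤ) : ℝ) < 1 := by
        have := hw.2.2
        have := hw'.2.1
        linarith
      have h8 : (-1 : ℝ) < ((n' - n : ℤ) : ℝ) := by
        have := hw.2.1
        have := hw'.2.2
        linarith
      have h9 : n' - n < 1 := by exact_mod_cast h7
      have h10 : -1 < n' - n := by exact_mod_cast h8
      apply hne
      have e1 : n = n' := by omega
      have e2 : k = k' := by omega
      rw [e1, e2]
    have h3 : ENNReal.ofReal M ≤ ENNReal.ofReal τ.im := le_trans h1 h2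
    exact (ENNReal.ofReal_le_ofReal_iff hτim.le).mp h3
  have hlM : ‖lam‖ * M ≤ 2 * Real.pi := by
    have h1 : ‖lam‖ * M ≤ ‖lam‖ * τ.im := mul_le_mul_of_nonneg_left hMτ hnl.le
    rw [him] at h1
    have h2 : ‖lam‖ * (2 * Real.pi * lam.re / ‖lam‖ ^ 2) = 2 * Real.pi * (lam.re / ‖lam‖) := by
      field_simp
    rw [h2] at h1
    have h3 : lam.re / ‖lam‖ ≤ 1 := by
      rw [div_le_one hnl]
      exact (le_abs_self _).trans (Complex.abs_re_le_norm lam)
    have h4 : 2 * Real.pi * (lam.re / ‖lam‖) ≤ 2 * Real.pi * 1 :=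
      mul_le_mul_of_nonneg_left h3 (by positivity)
    linarith
  have hlm : ‖lam‖ * m ≤ 2 * Real.pi :=
    (mul_le_mul_of_nonneg_left hmM hnl.le).trans hlM
  have hff : ∀ w ∈ Sm m, HasDerivAt (ff lam G φ)
      (lam * deriv (fun w => G (φ w)) w * ff lam G φ w) w := by
    intro w hw
    have h1 : HasDerivAt (fun w => G (φ w)) (deriv (fun w => G (φ w)) w) w :=
      ((hHf.dif w hw).differentiableAt ((Sm_open m).mem_nhds hw)).hasDerivAt
    have h2 := (h1.const_mul lam).cexp
    have h3 : lam * deriv (fun w => G (φ w)) w * ff lam G φ w =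
        Complex.exp (lam * G (φ w)) * (lam * deriv (fun w => G (φ w)) w) := by
      unfold ff
      ring
    rw [h3]
    exact h2
  have hffd : DifferentiableOn ℂ (ff lam G φ) (Sm m) := fun w hw =>
    (hff w hw).differentiableAt.differentiableWithinAt
  have hffi : InjOn (ff lam G φ) (Sm m) := by
    intro w hw w' hw' h
    exact hA.pi hw hw' (hA.Gb.injOn (hA.pm hw) (hA.pm hw') h)
  refine ⟨hlam, hHG, hHp, hHf, hmM, hA.fu, hMτ, hlm, hlM, him, hlat, hffd, hffi, ?_, ?_⟩
  · intro w hw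
    have hd := (hff w hw).deriv
    refine ⟨?_, hd, ?_⟩
    · unfold ff
      rw [hA.p1 w hw, hA.G1 _ (hA.pm hw), mul_add, mul_one, Complex.exp_add, mul_comm]
    · rw [hd]
      have h1 : deriv (fun w => G (φ w)) w ≠ 0 :=
        Pool.TU.X5.deriv_ne_zero_of_injOn (Sm_open m) hHf.dif hHf.inj hw
      exact mul_ne_zero (mul_ne_zero hlam h1) (Complex.exp_ne_zero _)
  · intro a b ha hb
    have hs : Sab a b ⊆ Sm m := fun w hw => ⟨lt_of_le_of_lt ha hw.1, lt_of_lt_of_le hw.2 hb⟩
    have ho : IsOpen (Sab a b) := (isOpen_lt continuous_const Complex.continuous_im).inter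
      (isOpen_lt Complex.continuous_im continuous_const)
    refine ⟨?_, ?_⟩
    · rintro _ ⟨w, hw, rfl⟩
      exact hA.Gb.mapsTo (hA.pm (hs hw))
    · exact Pool.TU.X5.isOpen_image_of_injOn ho (hffd.mono hs) (hffi.mono hs)

end Pool.Agent.Helper31.QT
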