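import Pool.Agent.Helper85.QT.St2

/-!
# Project QT, module CLA: every limit point is a limit of points of `A`
-/

set_option autoImplicit false

open MeasureTheory Matrix Set Topology Filter
open scoped ENNReal ComplexConjugate

namespace Pool.Agent.Helper31.QT

open Pool.Agent.Helper85.QT Pool.Agent.Helper86.QA

/-- the weight `aw` is finite at a point with a neighbourhood disjoint from the set -/
theorem aw_fin (hHME : StHME) (A : Set ℂ) (hA : MeasurableSet A) (ξ : ℂ) (r : ℝ) (hr : 0 < r)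
    (hd : ∀ η ∈ A, r ≤ ‖ξ - η‖) : aw A ξ ≠ ∞ := by
  have hx : ((ξ, r) : Pt) ∈ up := hr
  have hI := (hHME.1 A (ξ, r) hA hx).1
  have hI2 : IntegrableOn (fun η => 4 / r ^ 2 * pp (ξ, r) η ^ 2) A := hI.const_mul _
  unfold aw
  refine ne_of_lt (lt_of_le_of_lt ?_ hI2.lintegral_lt_top)
  refine setLIntegral_mono' hA ?_
  intro η hη
  refine ENNReal.ofReal_le_ofReal ?_
  have h1 := hd η hη
  have hp : 0 < ‖ξ - η‖ := lt_of_lt_of_le hr h1
  unfold pp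
  simp only
  have h2 : r ^ 2 ≤ ‖ξ - η‖ ^ 2 := by
    exact pow_le_pow_left₀ hr.le h1 2
  have h3 : ‖ξ - η‖ ^ 2 + r ^ 2 ≤ 2 * ‖ξ - η‖ ^ 2 := by linarith
  have h4 : 0 < ‖ξ - η‖ ^ 2 + r ^ 2 := by positivity
  rw [div_pow, ← mul_div_assoc, div_mul_cancel₀ _ (by positivity : r ^ 2 ≠ 0)]
  rw [div_le_div_iff₀ (by positivity) (by positivity)]
  have h5 : (‖ξ - η‖ ^ 2 + r ^ 2) ^ 2 ≤ (2 * ‖ξ - η‖ ^ 2) ^ 2 :=
    pow_le_pow_left₀ h4.le h3 2
  nlinarith [h5]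

theorem hCLA (hHME : Pool.Agent.Helper86.QA.StHME) (hACU : Pool.Agent.Helper86.QA.StACU)
    (hSB1 : StSB1) (hSB6 : StSB6) : StCLA := by
  intro Γ _ ρ A B hK ξ hξ
  by_contra hcl
  have hA : MeasurableSet A := hK.opA.measurableSet
  obtain ⟨r, hr, hball⟩ : ∃ r > 0, ∀ η ∈ A, r ≤ ‖ξ - η‖ := by
    rw [Metric.mem_closure_iff] at hcl
    push Not at hcl
    obtain ⟨r, hr, h⟩ := hcl
    refine ⟨r, hr, fun η hη => ?_⟩
    have := h η hη
    rwa [dist_eq_norm] at this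
  have haw := aw_fin hHME A hA ξ r hr hball
  set C : ℝ := (aw A ξ).toReal / Real.pi with hC
  have hub : ∀ t : ℝ, 0 < t → hv A (ξ, t) ≤ t ^ 2 * C := by
    intro t ht
    exact hHME.2.2.2.2.2.2.1 A (ξ, t) hA ht haw
  obtain ⟨K, hKc, hKu, hKx⟩ := hSB6 Γ ρ A B hK 0 le_rfl
  have hsb : ∀ t : ℝ, 0 < t → sb A B (ξ, t) ≤ 0 := by
    intro t ht
    have := ((hSB1 Γ ρ A B hK).2.2.2.2.2 (ξ, t) ht).2.2 ξ hξ
    simpa using this
  have hne : K.Nonempty := by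
    obtain ⟨γ, hγ⟩ := hKx (ξ, 1) (show (0:ℝ) < 1 from one_pos) (hsb 1 one_pos)
    exact ⟨_, hγ⟩
  have hcont : ContinuousOn (hv A) K := ((hHME.2.2.1 A hA).2).mono hKu
  obtain ⟨x0, hx0, hmin⟩ := hKc.exists_isMinOn hne hcont
  have hvpos : 0 < volume A := hK.opA.measure_pos volume hK.neA
  have hc : 0 < hv A x0 := hHME.2.2.2.2.2.1 A x0 hA hvpos (hKu hx0)
  have hlb : ∀ t : ℝ, 0 < t → hv A x0 ≤ hv A (ξ, t) := by
    intro t ht
    obtain ⟨γ, hγ⟩ := hKx (ξ, t) ht (hsb t ht)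
    have h1 := hmin hγ
    change hv A x0 ≤ hv A (au ρ γ (ξ, t)) at h1
    have h2 := ((hACU Γ ρ A B hK).2.2.2.2.1 γ (ξ, t) ht).2
    rw [h2] at h1
    exact h1
  have hC0 : 0 ≤ C := div_nonneg ENNReal.toReal_nonneg Real.pi_pos.le
  -- choose t
  have ht : 0 < Real.sqrt (hv A x0 / (2 * (C + 1))) := Real.sqrt_pos.mpr (by positivity)
  have h1 := hlb _ ht
  have h2 := hub _ ht
  rw [Real.sq_sqrt (by positivity)] at h2
  have h3 : hv A x0 / (2 * (C + 1)) * C ≤ hv A x0 / 2 := by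
    rw [div_mul_eq_mul_div, div_le_div_iff₀ (by positivity) (by norm_num)]
    nlinarith
  linarith

end Pool.Agent.Helper31.QT
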